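import Mathlib
import Pool.Agent.H19hemi.Check2

/-!
The smallest case `s = 3` is a counterexample. The lines of the classical generalized quadrangle
H(3,9) of order (9,3) are the 112 points of an elliptic quadric in PG(5,3), its points are the 280
lines on this quadric. It has a hemisystem (Segre) of 56 lines; the graph of this hemisystem is the
Gewirtz graph. We exhibit an involution of the graph that maps none of the 56 sets of 20 lines of the
hemisystem which meet a given line outside of the hemisystem to such a set, so it is not induced by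
a collineation.
-/

set_option autoImplicit false

namespace Pool.Agent.Results.MP_d2fb05_co.SegreHemisystem

/-- `I p l` (the point `p` lies on the line `l`) is a generalized quadrangle of order `(s², s)`:
every line has `s² + 1` points, every point lies on `s + 1` lines, two points lie on at most one
common line, and for every point `p` not on a line `l` there is exactly one point of `l` collinear
with `p`. -/
structure IsGQ {P L : Type} (I : P → L → Prop) (s : ℕ) : Prop where
  line_card : ∀ l : L, {p : P | I p l}.ncard = s ^ 2 + 1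
  point_card : ∀ p : P, {l : L | I p l}.ncard = s + 1
  unique_line : ∀ (p q : P) (l m : L), p ≠ q → I p l → I q l → I p m → I q m → l = m
  proj : ∀ (p : P) (l : L), ¬ I p l → ∃! q : P, I q l ∧ ∃ m : L, I p m ∧ I q m

/-- a set `H` of lines is a hemisystem: every point lies on exactly `(s + 1) / 2` lines of `H`. -/
def IsHemisystem {P L : Type} (I : P → L → Prop) (s : ℕ) (H : Set L) : Prop :=
  ∀ p : P, {l : L | l ∈ H ∧ I p l}.ncard = (s + 1) / 2

/-- the graph on `H`, two distinct lines being adjacent when they meet in a point. -/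
def Gamma {P L : Type} (I : P → L → Prop) (H : Set L) : SimpleGraph H where
  Adj l m := l ≠ m ∧ ∃ p : P, I p l ∧ I p m
  symm := ⟨fun _ _ h => ⟨h.1.symm, h.2.imp fun _ hp => ⟨hp.2, hp.1⟩⟩⟩
  loopless := ⟨fun _ h => h.1 rfl⟩

open Pool.Agent.H19hemi

theorem testBit_tab (l : Fin 112) (p : Fin 280) : Nat.testBit (lm l) p = true ↔ I p l := by
  rw [lm_spec]; rfl

theorem meets_iff (l m : Fin 112) : (∃ p : Fin 280, I p l ∧ I p m) ↔ lm l &&& lm m ≠ 0 := by
  constructor
  · rintro ⟨p, h1, h2⟩ h0
    have h3 : Nat.testBit (lm l &&& lm m) p = true := by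
      rw [Nat.testBit_and, (testBit_tab l p).2 h1, (testBit_tab m p).2 h2]; rfl
    rw [h0, Nat.zero_testBit] at h3
    exact absurd h3 (by decide)
  · intro h
    obtain ⟨i, hi⟩ := Nat.exists_testBit_of_ne_zero h
    rw [Nat.testBit_and, Bool.and_eq_true] at hi
    have hlt : i < 280 := by
      by_contra hge
      rw [not_lt] at hge
      have := Nat.testBit_lt_two_pow (lt_of_lt_of_le (lm_lt l)
        (Nat.pow_le_pow_right (n := 2) (by decide) hge))
      rw [this] at hi
      exact absurd hi.1 (by decide)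
    exact ⟨⟨i, hlt⟩, (testBit_tab l ⟨i, hlt⟩).1 hi.1, (testBit_tab m ⟨i, hlt⟩).1 hi.2⟩

theorem cm_iff (p q : Fin 280) : Nat.testBit (cm p) q = true ↔ ∃ m : Fin 112, I p m ∧ I q m := by
  have h0 : tl p 0 < 112 := tl_lt p 0
  have h1 : tl p 1 < 112 := tl_lt p 1
  have h2 : tl p 2 < 112 := tl_lt p 2
  have h3 : tl p 3 < 112 := tl_lt p 3
  have e0 := testBit_tab ⟨tl p 0, h0⟩ q
  have e1 := testBit_tab ⟨tl p 1, h1⟩ q
  have e2 := testBit_tab ⟨tl p 2, h2⟩ q
  have e3 := testBit_tab ⟨tl p 3, h3⟩ q
  simp only at e0 e1 e2 e3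
  have hp : ∀ m : Fin 112, I p m ↔
      (m = ⟨tl p 0, h0⟩ ∨ m = ⟨tl p 1, h1⟩ ∨ m = ⟨tl p 2, h2⟩ ∨ m = ⟨tl p 3, h3⟩) := by
    intro m
    unfold I inc
    simp only [Bool.or_eq_true, beq_iff_eq, Fin.ext_iff, or_assoc]
  unfold cm
  simp only [Nat.testBit_or, Bool.or_eq_true, e0, e1, e2, e3, hp]
  constructor
  · rintro (((h | h) | h) | h)
    · exact ⟨_, Or.inl rfl, h⟩
    · exact ⟨_, Or.inr (Or.inl rfl), h⟩
    · exact ⟨_, Or.inr (Or.inr (Or.inl rfl)), h⟩
    · exact ⟨_, Or.inr (Or.inr (Or.inr rfl)), h⟩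
  · rintro ⟨m, (rfl | rfl | rfl | rfl), h⟩
    · exact Or.inl (Or.inl (Or.inl h))
    · exact Or.inl (Or.inl (Or.inr h))
    · exact Or.inl (Or.inr h)
    · exact Or.inr h

theorem isGQ : IsGQ I 3 where
  line_card l := by
    have h : {p : Fin 280 | I p l} =
        ((Finset.univ.filter (fun p : Fin 280 => inc p l = true) : Finset (Fin 280)) : Set _) := by
      ext p
      simp [I]
    rw [h, Set.ncard_coe_finset, card_line l]
    norm_num
  point_card p := by
    have h : {l : Fin 112 | I p l} =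
        ((Finset.univ.filter (fun l : Fin 112 => inc p l = true) : Finset (Fin 112)) : Set _) := by
      ext l
      simp [I]
    rw [h, Set.ncard_coe_finset, card_point p]
  unique_line p q l m hpq h1 h2 h3 h4 := by
    by_contra hne
    have e1 : Nat.testBit (lm l &&& lm m) p = true := by
      rw [Nat.testBit_and, (testBit_tab l p).2 h1, (testBit_tab m p).2 h3]; rfl
    have e2 : Nat.testBit (lm l &&& lm m) q = true := by
      rw [Nat.testBit_and, (testBit_tab l q).2 h2, (testBit_tab m q).2 h4]; rfl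
    rcases meet_one l m hne with h | h
    · rw [h, Nat.zero_testBit] at e1
      exact absurd e1 (by decide)
    · rw [h, Nat.testBit_two_pow, decide_eq_true_eq] at e1 e2
      exact hpq (Fin.ext (e1.symm.trans e2))
  proj p l h := by
    rcases proj_check p l with h' | ⟨h1, h2⟩
    · exact absurd h' h
    have key : ∀ q : Fin 280, (I q l ∧ ∃ m : Fin 112, I p m ∧ I q m) ↔
        Nat.log2 (lm l &&& cm p) = q := by
      intro q
      rw [← cm_iff, ← testBit_tab, ← Bool.and_eq_true, ← Nat.testBit_and, h1, Nat.testBit_two_pow,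
        decide_eq_true_eq, Nat.log2_two_pow]
    refine ⟨⟨Nat.log2 (lm l &&& cm p), h2⟩, (key _).2 rfl, ?_⟩
    intro q hq
    exact Fin.ext ((key q).1 hq).symm

/-- the hemisystem -/
def Hs : Set (Fin 112) := {l | l.val < 56}

theorem isHemi : IsHemisystem I 3 Hs := by
  intro p
  have h : {l : Fin 112 | l ∈ Hs ∧ I p l} =
      ((Finset.univ.filter (fun l : Fin 112 => l.val < 56 ∧ inc p l = true) :
        Finset (Fin 112)) : Set _) := by
    ext l
    simp [I, Hs]
  rw [h, Set.ncard_coe_finset, hemi_check p]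

/-- the involution of the graph -/
def gEquiv : Hs ≃ Hs where
  toFun l := ⟨⟨gv l.1, gv_lt l.1⟩, gv_lt' l.1 l.2⟩
  invFun l := ⟨⟨gv l.1, gv_lt l.1⟩, gv_lt' l.1 l.2⟩
  left_inv l := by
    apply Subtype.ext
    apply Fin.ext
    exact gv_gv l.1
  right_inv l := by
    apply Subtype.ext
    apply Fin.ext
    exact gv_gv l.1

/-- the involution as an automorphism -/
def gIso : Gamma I Hs ≃g Gamma I Hs where
  toEquiv := gEquiv
  map_rel_iff' := by
    intro l m
    change (gEquiv l ≠ gEquiv m ∧ ∃ p : Fin 280, I p (gEquiv l).1 ∧ I p (gEquiv m).1) ↔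
      (l ≠ m ∧ ∃ p : Fin 280, I p l.1 ∧ I p m.1)
    rw [meets_iff, meets_iff]
    exact and_congr gEquiv.injective.ne_iff (not_congr (g_adj l.1 m.1 l.2 m.2).symm)

/-- **Theorem.** There are a finite generalized quadrangle of order `(3², 3)`, a hemisystem `H` of
it and an automorphism `g` of the graph of `H` which is not induced by any collineation
`(σ, τ)`. -/
theorem result : ∃ (P L : Type) (_ : Finite P) (_ : Finite L) (_ : Nonempty P) (_ : Nonempty L)
    (I : P → L → Prop) (H : Set L), IsGQ I 3 ∧ IsHemisystem I 3 H ∧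
      ∃ g : Gamma I H ≃g Gamma I H, ∀ (σ : Equiv.Perm P) (τ : Equiv.Perm L),
        (∀ p l, I p l ↔ I (σ p) (τ l)) → ∃ l : H, τ l ≠ g l := by
  refine ⟨Fin 280, Fin 112, inferInstance, inferInstance, inferInstance, inferInstance, I, Hs,
    isGQ, isHemi, gIso, ?_⟩
  intro σ τ h
  by_contra hcon
  push Not at hcon
  obtain ⟨l, hl, hne⟩ := not_ind (τ ⟨56, by norm_num⟩)
  apply hne
  have h1 := meets_iff l ⟨56, by norm_num⟩
  have h2 := meets_iff ⟨gv l, gv_lt l⟩ (τ ⟨56, by norm_num⟩)
  have h3 : τ l = ⟨gv l, gv_lt l⟩ := hcon ⟨l, hl⟩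
  have h4 : (∃ p : Fin 280, I p l ∧ I p ⟨56, by norm_num⟩) ↔
      ∃ p : Fin 280, I p ⟨gv l, gv_lt l⟩ ∧ I p (τ ⟨56, by norm_num⟩) := by
    rw [← h3]
    constructor
    · rintro ⟨p, a, b⟩
      exact ⟨σ p, (h _ _).1 a, (h _ _).1 b⟩
    · rintro ⟨p, a, b⟩
      refine ⟨σ.symm p, (h _ _).2 ?_, (h _ _).2 ?_⟩
      · rwa [Equiv.apply_symm_apply]
      · rwa [Equiv.apply_symm_apply]
  rw [h1, h2] at h4
  exact not_iff_not.1 h4

end Pool.Agent.Results.MP_d2fb05_co.SegreHemisystem
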